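import Pool.Agent.K7.H25.OG.Final

/-!
# MP_163e4a_co: stable limits of orthogonal Grothendieck polynomials

For every permutation `z` of `{0, …, n - 1}` (in particular for every involution) the sequence of
the orthogonal Grothendieck polynomials of `1^m × z`, `m ≥ 0`, converges coefficientwise.
-/

set_option autoImplicit false

namespace Pool.Agent.Results.MP_163e4a_co.StableLimit

open MvPolynomial Pool.Agent.K7.H25.OG

theorem result {n : ℕ} (z : Equiv.Perm (Fin n)) :
    -- `shift m z` is `1^m × z`
    (∀ (m : ℕ) (i : Fin m), shift m z (Fin.castAdd n i) = Fin.castAdd n i) ∧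
    (∀ (m : ℕ) (j : Fin n), shift m z (Fin.natAdd m j) = Fin.natAdd m (z j)) ∧
    -- `Kp z` is the K-polynomial of `MX z`: the multigraded Hilbert series of the coordinate
    -- ring times the product of all `1 - a_i a_j`, `i ≤ j`
    ((Kp z : MvPowerSeries (Fin n) ℤ) = hs (wtS n) (vanishingIdeal ℂ (MX z)) *
      ∏ s : Sym2 (Fin n), (1 - MvPowerSeries.monomial (wtS n s) 1)) ∧
    -- `dimMX z` is the dimension of `MX z`
    ringKrullDim (MvPolynomial (Sym2 (Fin n)) ℂ ⧸ vanishingIdeal ℂ (MX z)) =
      ((dimMX z : ℕ) : WithBot ℕ∞) ∧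
    -- for every monomial, its coefficient in the orthogonal Grothendieck polynomial of `1^m × z`
    -- is the same for all sufficiently large `m`
    ∀ α : ℕ →₀ ℕ, ∃ M : ℕ, ∀ m : ℕ, M ≤ m →
      coeff α (GO (shift m z)) = coeff α (GO (shift M z)) := by
  refine ⟨fun m i => shift_castAdd m z i, fun m j => shift_natAdd m z j, ?_, (dim_spec z).1, ?_⟩
  · rw [Kp_spec, hs_vanishingIdeal]
  · intro α
    obtain ⟨M, hM⟩ := convergence z α
    exact ⟨M, fun m hm => by rw [GO_shift, GO_shift, hM m hm]⟩

end Pool.Agent.Results.MP_163e4a_co.StableLimit
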